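import Mathlib

/-!
# Period relations in families: definitions (MP_290158_ag)
-/

open Polynomial

namespace Pool.Agent.Helper64.Per

/-- The field of algebraic numbers, as a subfield of `ℂ`. -/
abbrev Qbar : Type := algebraicClosure ℚ ℂ

/-- Evaluation at `t : ℂ` of polynomials with algebraic coefficients. -/
noncomputable def ev (t : ℂ) : Polynomial Qbar →+* ℂ :=
  (Polynomial.aeval t : Polynomial Qbar →ₐ[Qbar] ℂ).toRingHom

/-- Value at `(t, M)` of a polynomial in `t` and the entries of `M`, with coefficients in `ℚ̄`. -/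
noncomputable def evM {ι : Type} (q : MvPolynomial (ι × ι) (Polynomial Qbar)) (t : ℂ)
    (M : Matrix ι ι ℂ) : ℂ :=
  MvPolynomial.eval₂ (ev t) (fun p => M p.1 p.2) q

/-- Value at `M` of a polynomial in the entries of `M` with coefficients in a subfield `κ` of
`ℚ̄`. -/
noncomputable def evK {ι : Type} (κ : IntermediateField ℚ Qbar) (r : MvPolynomial (ι × ι) κ)
    (M : Matrix ι ι ℂ) : ℂ :=
  MvPolynomial.aeval (fun p => M p.1 p.2) r

/-- `B_{P,s}`: the fibre over `s` of the `ℚ̄`-Zariski closure in `S × GL` of the graph of the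
matrix-valued function `P` over the open set `U` (of the base `S`, an open subset of the affine
line). -/
def BFibre {ι : Type} [Fintype ι] [DecidableEq ι] (U : Set ℂ) (P : ℂ → Matrix ι ι ℂ) (s : ℂ) :
    Set (Matrix ι ι ℂ) :=
  {M | IsUnit M.det ∧ ∀ q : MvPolynomial (ι × ι) (Polynomial Qbar),
    (∀ t ∈ U, evM q t (P t) = 0) → evM q s M = 0}

/-- `Z`: the `ℚ̄`-Zariski closure in `GL` of the point `P₀`. -/
def ZClosure {ι : Type} [Fintype ι] [DecidableEq ι] (P₀ : Matrix ι ι ℂ) :
    Set (Matrix ι ι ℂ) :=
  {M | IsUnit M.det ∧ ∀ q : MvPolynomial (ι × ι) Qbar,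
    MvPolynomial.aeval (fun p => P₀ p.1 p.2) q = 0 → MvPolynomial.aeval (fun p => M p.1 p.2) q = 0}

/-- There is a relation of degree at most `δ` over `κ`: a polynomial over `κ` of total degree at
most `δ` which vanishes on `Z_s` but not on `B_{P,s}`. -/
def HasRelation {ι : Type} [Fintype ι] [DecidableEq ι] (U : Set ℂ) (P : ℂ → Matrix ι ι ℂ)
    (s : ℂ) (κ : IntermediateField ℚ Qbar) (δ : ℕ) : Prop :=
  ∃ r : MvPolynomial (ι × ι) κ, r.totalDegree ≤ δ ∧
    (∀ M ∈ ZClosure (P s), evK κ r M = 0) ∧ ¬ ∀ M ∈ BFibre U P s, evK κ r M = 0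

/-- The field of definition `κ(s) = K(s)` of a point `s` of the affine line, for the model over
`K`. -/
noncomputable def kappa (K : IntermediateField ℚ Qbar) (s : Qbar) : IntermediateField ℚ Qbar :=
  K ⊔ IntermediateField.adjoin ℚ {s}

/-- A finite étale cover `X : F(t, u) = 0` of degree `deg_u F` of the open subset
`S : D(t) ≠ 0` of the affine line over `ℚ̄`, with a model over the number field `K`. -/
structure Cover where
  /-- the number field -/
  K : IntermediateField ℚ Qbar
  finK : FiniteDimensional ℚ K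
  /-- the equation, a polynomial in `u` whose coefficients are polynomials in `t` -/
  F : Polynomial (Polynomial Qbar)
  /-- the base is the complement of the zeros of `D` -/
  D : Polynomial Qbar
  F_mem : ∀ i j, (F.coeff i).coeff j ∈ K
  D_mem : ∀ j, D.coeff j ∈ K
  monic : F.Monic
  D_ne : D ≠ 0
  etale : ∀ t : ℂ, ev t D ≠ 0 → (F.map (ev t)).Separable

namespace Cover

variable (f : Cover)

/-- The number of points in the fibres. -/
noncomputable def deg : ℕ := f.F.natDegree

/-- The complex points of the base. -/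
def S : Set ℂ := {t | ev t f.D ≠ 0}

/-- The cover is a disjoint union of copies of the base (trivial monodromy). -/
def Trivial : Prop := ∃ a : Fin f.deg → Polynomial Qbar, f.F = ∏ k, (X - C (a k))

/-- A local basis of `R⁰f_*ℤ` near `s`: the points of the fibres over a connected open
neighbourhood `U` of `s`, as analytic functions of `t`. -/
structure Branch (s : ℂ) where
  /-- the neighbourhood -/
  U : Set ℂ
  isOpen : IsOpen U
  conn : IsPreconnected U
  mem : s ∈ U
  sub : U ⊆ f.S
  /-- the points of the fibres -/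
  x : Fin f.deg → ℂ → ℂ
  an : ∀ k, AnalyticOnNhd ℂ (x k) U
  root : ∀ k, ∀ t ∈ U, (f.F.map (ev t)).eval (x k t) = 0
  inj : ∀ t ∈ U, Function.Injective fun k => x k t

/-- The period matrix on `U`: the values of the basis `1, u, …, u^{n-1}` of `H⁰_dR(X/S) = O(X)`
at the points of the fibre. -/
def P {s : ℂ} (b : f.Branch s) (t : ℂ) : Matrix (Fin f.deg) (Fin f.deg) ℂ :=
  Matrix.of fun i k => b.x k t ^ (i : ℕ)

/-- The degree-`δ` statement of the problem for the family `X → S` and `j = 0` (where the Hodge
locus is empty). -/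
def Holds (δ : ℕ) : Prop :=
  ∀ s : Qbar, (s : ℂ) ∈ f.S → ∀ b : f.Branch (s : ℂ),
    ¬ HasRelation b.U (f.P b) (s : ℂ) (kappa f.K s) δ

end Cover

end Pool.Agent.Helper64.Per
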