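import Mathlib

/-!
# Period relations: algebraic specialisation (lying over), over an abstract field
-/

open Polynomial

namespace Pool.Agent.Helper64.Per

section

variable {k : Type} [Field k] {L : Type} [Field L]

theorem dvd_of_vanish {φ : Polynomial k →+* L} (hφi : Function.Injective φ) {x : L}
    {G : Polynomial (Polynomial k)}
    (hG : Irreducible G) (hm : G.Monic) (hx : eval₂ φ x G = 0)
    {h : Polynomial (Polynomial k)} (hh : eval₂ φ x h = 0) : G ∣ h := by
  let K := FractionRing (Polynomial k)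
  let ψ : K →+* L := IsFractionRing.lift hφi
  let _ : Algebra K L := ψ.toAlgebra
  have hψ : ψ.comp (algebraMap (Polynomial k) K) = φ := by
    refine RingHom.ext (fun p => ?_)
    exact IsFractionRing.lift_algebraMap hφi p
  have hcomp : ∀ p : Polynomial (Polynomial k),
      aeval x (p.map (algebraMap (Polynomial k) K)) = eval₂ φ x p := by
    intro p
    rw [aeval_def, eval₂_map]
    have : (algebraMap K L).comp (algebraMap (Polynomial k) K) = φ := hψ
    rw [this]
  have hGirr : Irreducible (G.map (algebraMap (Polynomial k) K)) :=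
    hm.irreducible_iff_irreducible_map_fraction_map.1 hG
  have hmin := minpoly.eq_of_irreducible_of_monic (A := K) (x := x) hGirr
    (by rw [hcomp]; exact hx) (hm.map _)
  have hdvd : G.map (algebraMap (Polynomial k) K) ∣ h.map (algebraMap (Polynomial k) K) := by
    rw [hmin]
    exact minpoly.dvd K x (by rw [hcomp]; exact hh)
  have hmod : (h.map (algebraMap (Polynomial k) K)) %ₘ
      (G.map (algebraMap (Polynomial k) K)) = 0 :=
    (modByMonic_eq_zero_iff_dvd (hm.map _)).2 hdvd
  rw [← map_modByMonic _ hm] at hmod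
  have hzero : h %ₘ G = 0 :=
    (Polynomial.map_eq_zero_iff (IsFractionRing.injective (Polynomial k) K)).1 hmod
  exact (modByMonic_eq_zero_iff_dvd hm).1 hzero

theorem exists_specialization_aux [IsAlgClosed k] {n : ℕ} {F : Polynomial (Polynomial k)}
    (hF : F.Monic) {φ : Polynomial k →+* L} (hφi : Function.Injective φ)
    (x : Fin n → L) (hx : ∀ j, eval₂ φ (x j) F = 0)
    (i : Fin n) {G : Polynomial (Polynomial k)} (hG : Irreducible G) (hGm : G.Monic)
    (hGx : eval₂ φ (x i) G = 0) (s c : k) (hc : eval₂ (evalRingHom s) c G = 0)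
    {B : Type} [CommRing B] (mk : MvPolynomial (Fin n) (Polynomial k) →+* B)
    (hsurj : Function.Surjective mk)
    (hmk0 : ∀ q, MvPolynomial.eval₂Hom φ x q = 0 → mk q = 0)
    (hmk1 : ∀ q, mk q = 0 → MvPolynomial.eval₂Hom φ x q = 0) :
    ∃ y : Fin n → k, y i = c ∧ ∀ q : MvPolynomial (Fin n) (Polynomial k),
      MvPolynomial.eval₂ φ x q = 0 → MvPolynomial.eval₂ (evalRingHom s) y q = 0 := by
  let ε : MvPolynomial (Fin n) (Polynomial k) →+* L := MvPolynomial.eval₂Hom φ x
  have hεC : ε.comp MvPolynomial.C = φ := by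
    refine RingHom.ext (fun p => ?_)
    simp [ε]
  have hεX : ∀ j, ε (MvPolynomial.X j) = x j := fun j => by simp [ε]
  let g0 : Polynomial (Polynomial k) →+* MvPolynomial (Fin n) (Polynomial k) :=
    Polynomial.eval₂RingHom MvPolynomial.C (MvPolynomial.X i)
  let g : Polynomial (Polynomial k) →+* B := mk.comp g0
  let _ : Algebra (Polynomial (Polynomial k)) B := g.toAlgebra
  have halg : ∀ r : Polynomial (Polynomial k),
      algebraMap (Polynomial (Polynomial k)) B r = mk (g0 r) := fun r => rfl
  have hg0C : ∀ a : Polynomial k, g0 (C a) = MvPolynomial.C a := fun a => by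
    simp [g0]
  have hg0X : g0 X = MvPolynomial.X i := by simp [g0]
  have hFj : ∀ j, mk (eval₂ MvPolynomial.C (MvPolynomial.X j) F) = 0 := by
    intro j
    apply hmk0
    change ε _ = 0
    rw [Polynomial.hom_eval₂, hεC, hεX]
    exact hx j
  have hintX : ∀ j, IsIntegral (Polynomial (Polynomial k)) (mk (MvPolynomial.X j)) := by
    intro j
    refine ⟨F.map (C : Polynomial k →+* Polynomial (Polynomial k)), hF.map _, ?_⟩
    rw [eval₂_map]
    have h1 : (algebraMap (Polynomial (Polynomial k)) B).comp
        (C : Polynomial k →+* Polynomial (Polynomial k)) = mk.comp MvPolynomial.C := by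
      refine RingHom.ext (fun p => ?_)
      change mk (g0 (C p)) = mk (MvPolynomial.C p)
      rw [hg0C]
    have h2 := Polynomial.hom_eval₂ F (MvPolynomial.C (σ := Fin n)) mk (MvPolynomial.X j)
    rw [h1, ← h2]
    exact hFj j
  have : Algebra.IsIntegral (Polynomial (Polynomial k)) B := by
    refine ⟨fun z => ?_⟩
    obtain ⟨p, rfl⟩ := hsurj z
    induction p using MvPolynomial.induction_on with
    | C a =>
      have : mk (MvPolynomial.C a) = algebraMap (Polynomial (Polynomial k)) B (C a) := by
        rw [halg, hg0C]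
      rw [this]
      exact isIntegral_algebraMap
    | add p q hp hq =>
      rw [map_add]
      exact IsIntegral.add hp hq
    | mul_X p j hp =>
      rw [map_mul]
      exact IsIntegral.mul hp (hintX j)
  let e : Polynomial (Polynomial k) →+* k := Polynomial.eval₂RingHom (evalRingHom s) c
  let P1 : Ideal (Polynomial (Polynomial k)) := RingHom.ker e
  have : P1.IsMaximal := RingHom.ker_isMaximal_of_surjective e (fun a => ⟨C (C a), by simp [e]⟩)
  have hker : RingHom.ker (algebraMap (Polynomial (Polynomial k)) B) ≤ P1 := by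
    intro h hh
    have h1 : mk (g0 h) = 0 := hh
    have h2 : ε (g0 h) = 0 := hmk1 _ h1
    have h3 : eval₂ φ (x i) h = 0 := by
      have : ε (g0 h) = eval₂ φ (x i) h := by
        change ε (eval₂ MvPolynomial.C (MvPolynomial.X i) h) = _
        rw [Polynomial.hom_eval₂, hεC, hεX]
      rw [← this]; exact h2
    obtain ⟨h', rfl⟩ := dvd_of_vanish hφi hG hGm hGx h3
    change e (G * h') = 0
    rw [map_mul]
    have : e G = 0 := hc
    rw [this, zero_mul]
  obtain ⟨Q, hQmax, hQ⟩ := Ideal.exists_ideal_over_maximal_of_isIntegral (S := B) P1 hker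
  let _ : Field (B ⧸ Q) := Ideal.Quotient.field Q
  let π : MvPolynomial (Fin n) (Polynomial k) →+* B ⧸ Q := (Ideal.Quotient.mk Q).comp mk
  let lam : k →+* B ⧸ Q := π.comp ((MvPolynomial.C).comp Polynomial.C)
  have hQ' : ∀ r : Polynomial (Polynomial k), e r = 0 → π (g0 r) = 0 := by
    intro r hr
    have h1 : r ∈ Q.comap (algebraMap (Polynomial (Polynomial k)) B) := by rw [hQ]; exact hr
    have h2 : mk (g0 r) ∈ Q := h1
    exact Ideal.Quotient.eq_zero_iff_mem.2 h2
  have hπC : π.comp MvPolynomial.C = lam.comp (evalRingHom s) := by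
    refine Polynomial.ringHom_ext (fun a => ?_) ?_
    · simp [lam]
    · have h1 : π (g0 (C (X - C s))) = 0 := hQ' _ (by simp [e])
      rw [hg0C, map_sub, map_sub] at h1
      have h2 := sub_eq_zero.1 h1
      simpa [lam] using h2
  have hroot : ∀ j, ((F.map (evalRingHom s)).map lam).IsRoot (π (MvPolynomial.X j)) := by
    intro j
    rw [IsRoot, eval_map, eval₂_map, ← hπC, ← Polynomial.hom_eval₂]
    change (Ideal.Quotient.mk Q) (mk (eval₂ MvPolynomial.C (MvPolynomial.X j) F)) = 0
    rw [hFj j, map_zero]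
  have hy : ∀ j, ∃ y : k, lam y = π (MvPolynomial.X j) := fun j =>
    (IsAlgClosed.splits (F.map (evalRingHom s))).mem_range_of_isRoot
      ((hF.map _).ne_zero) (hroot j)
  choose y hy using hy
  refine ⟨y, ?_, ?_⟩
  · apply lam.injective
    rw [hy i]
    have h1 : π (g0 (X - C (C c))) = 0 := hQ' _ (by simp [e])
    rw [map_sub, hg0X, hg0C, map_sub] at h1
    exact sub_eq_zero.1 h1
  · intro q hq
    apply lam.injective
    rw [map_zero]
    have h1 : π q = 0 := by
      change (Ideal.Quotient.mk Q) (mk q) = 0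
      rw [hmk0 q hq, map_zero]
    have h2 : π = lam.comp (MvPolynomial.eval₂Hom (evalRingHom s) y) := by
      refine MvPolynomial.ringHom_ext (fun p => ?_) (fun j => ?_)
      · have := RingHom.congr_fun hπC p
        simpa using this
      · simp [hy j]
    rw [← h1, h2]
    rfl

theorem exists_specialization [IsAlgClosed k] {n : ℕ} {F : Polynomial (Polynomial k)}
    (hF : F.Monic) {φ : Polynomial k →+* L} (hφi : Function.Injective φ)
    (x : Fin n → L) (hx : ∀ j, eval₂ φ (x j) F = 0)
    (i : Fin n) {G : Polynomial (Polynomial k)} (hG : Irreducible G) (hGm : G.Monic)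
    (hGx : eval₂ φ (x i) G = 0) (s c : k) (hc : eval₂ (evalRingHom s) c G = 0) :
    ∃ y : Fin n → k, y i = c ∧ ∀ q : MvPolynomial (Fin n) (Polynomial k),
      MvPolynomial.eval₂ φ x q = 0 → MvPolynomial.eval₂ (evalRingHom s) y q = 0 := by
  have h0 : ∀ q, MvPolynomial.eval₂Hom φ x q = 0 →
      (MvPolynomial.eval₂Hom φ x).rangeRestrict q = 0 := fun q hq => Subtype.ext hq
  have h1 : ∀ q, (MvPolynomial.eval₂Hom φ x).rangeRestrict q = 0 →
      MvPolynomial.eval₂Hom φ x q = 0 := fun q hq => congrArg Subtype.val hq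
  exact exists_specialization_aux hF hφi x hx i hG hGm hGx s c hc
    (MvPolynomial.eval₂Hom φ x).rangeRestrict (RingHom.rangeRestrict_surjective _) h0 h1

/-- A monic polynomial of degree `n` with `n` distinct roots. -/
theorem prod_of_roots {n : ℕ} {p : Polynomial L} (hp : p.Monic)
    (hn : p.natDegree = n) (x : Fin n → L) (hx : ∀ j, p.eval (x j) = 0)
    (hinj : Function.Injective x) : p = ∏ j, (X - C (x j)) := by
  have hdvd : (∏ j, (X - C (x j))) ∣ p := by
    refine Finset.prod_dvd_of_coprime ?_ (fun j _ => dvd_iff_isRoot.2 (hx j))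
    intro i _ j _ hij
    exact pairwise_coprime_X_sub_C hinj hij
  have hmon : (∏ j, (X - C (x j))).Monic := monic_prod_of_monic _ _ (fun j _ => monic_X_sub_C _)
  refine eq_of_monic_of_dvd_of_natDegree_le hmon hp hdvd ?_
  rw [natDegree_prod_of_monic _ _ (fun j _ => monic_X_sub_C _)]
  simp [hn]

theorem specialization_prod {n : ℕ} {F : Polynomial (Polynomial k)} {φ : Polynomial k →+* L}
    (x : Fin n → L) (hprod : F.map φ = ∏ j, (X - C (x j))) (s : k) (y : Fin n → k)
    (hy : ∀ q : MvPolynomial (Fin n) (Polynomial k),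
      MvPolynomial.eval₂ φ x q = 0 → MvPolynomial.eval₂ (evalRingHom s) y q = 0) :
    F.map (evalRingHom s) = ∏ j, (X - C (y j)) := by
  let W : Polynomial (MvPolynomial (Fin n) (Polynomial k)) :=
    ∏ j, (X - C (MvPolynomial.X j))
  have hW1 : W.map (MvPolynomial.eval₂Hom φ x) = ∏ j, (X - C (x j)) := by
    simp only [W, Polynomial.map_prod, Polynomial.map_sub, map_X, map_C, MvPolynomial.coe_eval₂Hom,
      MvPolynomial.eval₂_X]
  have hW2 : W.map (MvPolynomial.eval₂Hom (evalRingHom s) y) = ∏ j, (X - C (y j)) := by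
    simp only [W, Polynomial.map_prod, Polynomial.map_sub, map_X, map_C, MvPolynomial.coe_eval₂Hom,
      MvPolynomial.eval₂_X]
  ext1 i
  have h1 : MvPolynomial.eval₂ φ x (MvPolynomial.C (F.coeff i) - W.coeff i) = 0 := by
    rw [MvPolynomial.eval₂_sub, MvPolynomial.eval₂_C]
    have h2 : MvPolynomial.eval₂ φ x (W.coeff i) = (∏ j, (X - C (x j))).coeff i := by
      rw [← hW1, coeff_map]; rfl
    rw [h2, ← hprod, coeff_map, sub_self]
  have h3 := hy _ h1
  rw [MvPolynomial.eval₂_sub, MvPolynomial.eval₂_C] at h3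
  have h4 : MvPolynomial.eval₂ (evalRingHom s) y (W.coeff i) = (∏ j, (X - C (y j))).coeff i := by
    rw [← hW2, coeff_map]; rfl
  rw [h4] at h3
  rw [coeff_map]
  exact sub_eq_zero.1 h3

end

end Pool.Agent.Helper64.Per
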