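import Mathlib

/-!
# Period relations: factors and points with a rational coordinate
-/

open Polynomial

namespace Pool.Agent.Helper64.Per

theorem split_or {R : Type} [CommRing R] [IsDomain R] [WfDvdMonoid (Polynomial R)] (n : ℕ) :
    ∀ F : Polynomial R, F.Monic → F.natDegree = n →
      (∃ a : Fin n → R, F = ∏ i, (X - C (a i))) ∨
      ∃ G : Polynomial R, Irreducible G ∧ G.Monic ∧ 2 ≤ G.natDegree ∧ G ∣ F := by
  induction n with
  | zero =>
    intro F hF hn
    left
    refine ⟨Fin.elim0, ?_⟩
    rw [(Monic.natDegree_eq_zero hF).1 hn]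
    simp
  | succ n ih =>
    intro F hF hn
    have hnu : ¬ IsUnit F := by
      intro hu
      have := natDegree_eq_zero_of_isUnit hu
      omega
    obtain ⟨g, hg, h, hgh⟩ := WfDvdMonoid.exists_irreducible_factor hnu hF.ne_zero
    have hlc : g.leadingCoeff * h.leadingCoeff = 1 := by
      rw [← leadingCoeff_mul, ← hgh]; exact hF
    have hu1 : IsUnit (C h.leadingCoeff : Polynomial R) :=
      (IsUnit.of_mul_eq_one g.leadingCoeff (by rw [mul_comm]; exact hlc)).map C
    have hGm : (C h.leadingCoeff * g).Monic := by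
      rw [Monic, leadingCoeff_mul, leadingCoeff_C, mul_comm]; exact hlc
    have hHm : (C g.leadingCoeff * h).Monic := by
      rw [Monic, leadingCoeff_mul, leadingCoeff_C]; exact hlc
    have hGirr : Irreducible (C h.leadingCoeff * g) := by
      obtain ⟨u, hu⟩ := hu1
      rw [← hu]
      exact (irreducible_units_mul u).2 hg
    have hF' : F = (C h.leadingCoeff * g) * (C g.leadingCoeff * h) := by
      have : (C h.leadingCoeff * g) * (C g.leadingCoeff * h) =
          (C (g.leadingCoeff * h.leadingCoeff)) * (g * h) := by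
        rw [C_mul]; ring
      rw [this, hlc, C_1, one_mul, hgh]
    rcases Nat.lt_or_ge (C h.leadingCoeff * g).natDegree 2 with hlt | hge
    · have hpos : (C h.leadingCoeff * g).natDegree ≠ 0 := by
        intro h0
        rw [Monic.natDegree_eq_zero hGm] at h0
        rw [h0] at hGirr
        exact hGirr.not_isUnit isUnit_one
      have h1 : (C h.leadingCoeff * g).natDegree = 1 := by omega
      have hdeg : (C g.leadingCoeff * h).natDegree = n := by
        have := hGm.natDegree_mul hHm
        rw [← hF', hn, h1] at this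
        omega
      have hlin : C h.leadingCoeff * g = X - C (-(C h.leadingCoeff * g).coeff 0) := by
        rw [C_neg, sub_neg_eq_add]
        exact hGm.eq_X_add_C h1
      rcases ih _ hHm hdeg with ⟨a, ha⟩ | ⟨G, hG1, hG2, hG3, hG4⟩
      · left
        refine ⟨Fin.cons (-(C h.leadingCoeff * g).coeff 0) a, ?_⟩
        rw [Fin.prod_univ_succ]
        simp only [Fin.cons_zero, Fin.cons_succ]
        rw [← hlin, ← ha]
        exact hF'
      · right
        exact ⟨G, hG1, hG2, hG3, hG4.trans ⟨_, by rw [mul_comm]; exact hF'⟩⟩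
    · right
      exact ⟨_, hGirr, hGm, hge, ⟨_, hF'⟩⟩

section

variable {k : Type} [Field k] [IsAlgClosed k]

omit [IsAlgClosed k] in
theorem eval_eval_C (G : Polynomial (Polynomial k)) (s c : k) :
    (G.eval (C c)).eval s = eval₂ (evalRingHom s) c G := by
  have := Polynomial.hom_eval₂ G (RingHom.id (Polynomial k)) (evalRingHom s) (C c)
  simpa [eval₂_id, Polynomial.eval₂_eq_eval_map] using this

theorem infinite_points [CharZero k] {G : Polynomial (Polynomial k)} (hG : Irreducible G)
    (hGm : G.Monic) (hdeg : 2 ≤ G.natDegree) {D : Polynomial k} (hD : D ≠ 0) :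
    {s : k | D.eval s ≠ 0 ∧ ∃ c : ℤ, eval₂ (evalRingHom s) (c : k) G = 0}.Infinite := by
  classical
  -- finitely many integers are roots of a specialisation
  have hfin : ∀ s : k, {c : ℤ | eval₂ (evalRingHom s) (c : k) G = 0}.Finite := by
    intro s
    have hne : G.map (evalRingHom s) ≠ 0 := (hGm.map _).ne_zero
    have h1 : {c : k | (G.map (evalRingHom s)).IsRoot c}.Finite :=
      Polynomial.finite_setOfPred_isRoot hne
    refine (h1.preimage (f := fun c : ℤ => (c : k)) (Int.cast_injective.injOn)).subset ?_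
    intro c hc
    simp only [Set.mem_preimage, Set.mem_ofPred_eq, IsRoot, eval_map]
    exact hc
  have hZ0 : {c : ℤ | (G.eval (C (c : k))).natDegree = 0}.Finite := by
    by_contra hinf
    have hinf' : {c : ℤ | (G.eval (C (c : k))).natDegree = 0}.Infinite := hinf
    have hmapeq : ∀ s1 s2 : k, G.map (evalRingHom s1) = G.map (evalRingHom s2) := by
      intro s1 s2
      refine eq_of_infinite_eval_eq _ _ ?_
      refine (hinf'.image (f := fun c : ℤ => (c : k)) (Int.cast_injective.injOn)).mono ?_
      rintro _ ⟨c, hc, rfl⟩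
      simp only [Set.mem_ofPred_eq, eval_map]
      rw [← eval_eval_C, ← eval_eval_C]
      have hc' : (G.eval (C (c : k))).natDegree = 0 := hc
      rw [eq_C_of_natDegree_eq_zero hc']
      simp
    have hcoeff : ∀ i, G.coeff i = C ((G.coeff i).eval 0) := by
      intro i
      refine Polynomial.funext (fun s => ?_)
      rw [eval_C]
      have h1 := congrArg (fun p => p.coeff i) (hmapeq s 0)
      simpa [coeff_map] using h1
    have hGC : G = (G.map (evalRingHom 0)).map C := by
      ext1 i
      rw [coeff_map, coeff_map]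
      exact hcoeff i
    have hd0 : (G.map (evalRingHom 0)).degree ≠ 0 := by
      intro h0
      have : (G.map (evalRingHom 0)).natDegree = 0 := natDegree_eq_zero_iff_degree_le_zero.2 h0.le
      rw [hGm.natDegree_map] at this
      omega
    obtain ⟨r, hr⟩ := IsAlgClosed.exists_root _ hd0
    have hdvd : X - C (C r) ∣ G := by
      rw [hGC]
      have h1 : (X - C r) ∣ G.map (evalRingHom 0) := dvd_iff_isRoot.2 hr
      have h2 := map_dvd (mapRingHom (C : k →+* Polynomial k)) h1
      simpa using h2
    obtain ⟨H, hH⟩ := hdvd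
    rcases hG.isUnit_or_isUnit hH with hu | hu
    · have := natDegree_eq_zero_of_isUnit hu
      rw [natDegree_X_sub_C] at this
      omega
    · have h0 := natDegree_eq_zero_of_isUnit hu
      have hHne : H ≠ 0 := hu.ne_zero
      have : G.natDegree = 1 := by
        rw [hH, natDegree_mul (X_sub_C_ne_zero _) hHne, natDegree_X_sub_C, h0]
      omega
  set E : Set ℤ := {c : ℤ | (G.eval (C (c : k))).natDegree = 0} ∪
    ⋃ ρ ∈ D.roots.toFinset, {c : ℤ | eval₂ (evalRingHom ρ) (c : k) G = 0} with hE
  have hEfin : E.Finite := by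
    refine hZ0.union ?_
    exact Set.Finite.biUnion (Finset.finite_toSet _) (fun ρ _ => hfin ρ)
  intro hT
  have hcover : Eᶜ ⊆ ⋃ s ∈ {s : k | D.eval s ≠ 0 ∧ ∃ c : ℤ, eval₂ (evalRingHom s) (c : k) G = 0},
      {c : ℤ | eval₂ (evalRingHom s) (c : k) G = 0} := by
    intro c hc
    have hc1 : (G.eval (C (c : k))).natDegree ≠ 0 := fun h => hc (Or.inl h)
    have hd : (G.eval (C (c : k))).degree ≠ 0 := by
      intro h0
      exact hc1 (natDegree_eq_zero_iff_degree_le_zero.2 h0.le)
    obtain ⟨s, hs⟩ := IsAlgClosed.exists_root _ hd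
    have hs' : eval₂ (evalRingHom s) (c : k) G = 0 := by
      rw [← eval_eval_C]; exact hs
    have hDs : D.eval s ≠ 0 := by
      intro h0
      apply hc
      right
      simp only [Set.mem_iUnion, Set.mem_ofPred_eq, Multiset.mem_toFinset]
      exact ⟨s, (mem_roots hD).2 h0, hs'⟩
    simp only [Set.mem_iUnion, Set.mem_ofPred_eq]
    exact ⟨s, ⟨hDs, c, hs'⟩, hs'⟩
  have hfin2 : (Eᶜ).Finite := (Set.Finite.biUnion hT (fun s _ => hfin s)).subset hcover
  exact Set.infinite_univ (α := ℤ) (by
    rw [← Set.union_compl_self E]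
    exact hEfin.union hfin2)

theorem exists_other_root {p : Polynomial k} (hp : p.Separable) (hdeg : 2 ≤ p.natDegree) {c : k}
    (hc : p.eval c = 0) : ∃ c' : k, c' ≠ c ∧ p.eval c' = 0 := by
  obtain ⟨q, hq⟩ := dvd_iff_isRoot.2 (show p.IsRoot c from hc)
  have hp0 : p ≠ 0 := hp.ne_zero
  have hq0 : q ≠ 0 := by
    rintro rfl
    exact hp0 (by rw [hq, mul_zero])
  have hqdeg : q.degree ≠ 0 := by
    intro h0
    have h1 : q.natDegree = 0 := natDegree_eq_zero_iff_degree_le_zero.2 h0.le
    have : p.natDegree = 1 := by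
      rw [hq, natDegree_mul (X_sub_C_ne_zero _) hq0, natDegree_X_sub_C, h1]
    omega
  obtain ⟨c', hc'⟩ := IsAlgClosed.exists_root _ hqdeg
  refine ⟨c', ?_, ?_⟩
  · rintro rfl
    have h1 : (X - C c') * (X - C c') ∣ p := by
      rw [hq]
      exact mul_dvd_mul_left _ (dvd_iff_isRoot.2 hc')
    have h2 := hp.squarefree _ h1
    have := natDegree_eq_zero_of_isUnit h2
    rw [natDegree_X_sub_C] at this
    omega
  · rw [hq, eval_mul, IsRoot.def.1 hc', mul_zero]

end

end Pool.Agent.Helper64.Per
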