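import Pool.Agent.Helper64.Per.Defs
import Pool.Agent.Helper64.Per.Alg
import Pool.Agent.Helper64.Per.Points

/-!
# Period relations: finite étale covers (j = 0)
-/

open Polynomial

namespace Pool.Agent.Helper64.Per

instance instIsAlgClosedQbar : IsAlgClosed Qbar :=
  (algebraicClosure.isAlgClosure ℚ ℂ).isAlgClosed

theorem ev_apply (t : ℂ) (p : Polynomial Qbar) : ev t p = Polynomial.aeval t p := rfl

theorem ev_C (t : ℂ) (a : Qbar) : ev t (C a) = (a : ℂ) := by
  rw [ev_apply, aeval_C]; rfl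

theorem ev_X (t : ℂ) : ev t X = t := by
  rw [ev_apply, aeval_X]

theorem ev_coe (s : Qbar) : ev (s : ℂ) = (algebraMap Qbar ℂ).comp (evalRingHom s) := by
  refine Polynomial.ringHom_ext (fun a => ?_) ?_
  · rw [ev_C]; simp
  · rw [ev_X]; simp

theorem ev_coe_apply (s : Qbar) (p : Polynomial Qbar) : ev (s : ℂ) p = ((p.eval s : Qbar) : ℂ) := by
  rw [ev_coe]; rfl

theorem ev_injective {t : ℂ} (ht : Transcendental Qbar t) : Function.Injective (ev t) :=
  transcendental_iff_injective.1 ht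

theorem exists_transcendental {U : Set ℂ} (hU : IsOpen U) (hne : U.Nonempty) :
    ∃ t ∈ U, Transcendental Qbar t := by
  have hc : Countable Qbar := by
    have h1 : {x : ℂ | IsAlgebraic ℚ x}.Countable := Algebraic.countable ℚ ℂ
    have h2 : ((algebraicClosure ℚ ℂ : IntermediateField ℚ ℂ) : Set ℂ).Countable := by
      refine h1.mono (fun x hx => ?_)
      exact mem_algebraicClosure_iff.1 hx
    exact h2.to_subtype
  have h3 : {x : ℂ | IsAlgebraic Qbar x}.Countable := Algebraic.countable Qbar ℂ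
  have h4 := h3.dense_compl ℝ
  obtain ⟨t, ht1, ht2⟩ := h4.inter_open_nonempty U hU hne
  exact ⟨t, ht1, ht2⟩

theorem analyticOnNhd_eval₂ (G : Polynomial (Polynomial Qbar)) {x : ℂ → ℂ} {U : Set ℂ}
    (hx : AnalyticOnNhd ℂ x U) : AnalyticOnNhd ℂ (fun t => eval₂ (ev t) (x t) G) U := by
  intro t ht
  have h1 : (fun t => eval₂ (ev t) (x t) G) = fun t =>
      ∑ i ∈ Finset.range (G.natDegree + 1), Polynomial.aeval t (G.coeff i) * x t ^ i := by
    funext t
    rw [eval₂_eq_sum_range]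
    rfl
  rw [h1]
  refine Finset.analyticAt_fun_sum _ (fun i _ => ?_)
  exact (analyticAt_id.aeval_polynomial (G.coeff i)).mul ((hx t ht).pow i)

namespace Cover

variable {f : Cover}

theorem eval₂_root {s : ℂ} (b : f.Branch s) {t : ℂ} (ht : t ∈ b.U) (k : Fin f.deg) :
    eval₂ (ev t) (b.x k t) f.F = 0 := by
  have := b.root k t ht
  rwa [eval_map] at this

theorem map_eq_prod {s : ℂ} (b : f.Branch s) {t : ℂ} (ht : t ∈ b.U) :
    f.F.map (ev t) = ∏ k, (X - C (b.x k t)) :=
  prod_of_roots (f.monic.map _) (f.monic.natDegree_map _) _ (fun k => b.root k t ht) (b.inj t ht)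

theorem P_det {s : ℂ} (b : f.Branch s) {t : ℂ} (ht : t ∈ b.U) : IsUnit (f.P b t).det := by
  have h1 : f.P b t = (Matrix.vandermonde (fun k => b.x k t)).transpose := by
    ext i k
    simp [P, Matrix.vandermonde_apply]
  rw [h1, Matrix.det_transpose, isUnit_iff_ne_zero]
  exact Matrix.det_vandermonde_ne_zero_iff.2 (b.inj t ht)

/-- The matrix with entries `y_k^i`. -/
noncomputable def ofRoots {n : ℕ} (y : Fin n → ℂ) : Matrix (Fin n) (Fin n) ℂ :=
  Matrix.of fun i k => y k ^ (i : ℕ)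

theorem ofRoots_det {n : ℕ} {y : Fin n → ℂ} (hy : Function.Injective y) :
    IsUnit (ofRoots y).det := by
  have h1 : ofRoots y = (Matrix.vandermonde y).transpose := by
    ext i k
    simp [ofRoots, Matrix.vandermonde_apply]
  rw [h1, Matrix.det_transpose, isUnit_iff_ne_zero]
  exact Matrix.det_vandermonde_ne_zero_iff.2 hy

theorem P_eq {s : ℂ} (b : f.Branch s) (t : ℂ) : f.P b t = ofRoots (fun k => b.x k t) := rfl

/-- Substitution `M_{ik} = Y_k^i`. -/
noncomputable def subst (n : ℕ) (q : MvPolynomial (Fin n × Fin n) (Polynomial Qbar)) :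
    MvPolynomial (Fin n) (Polynomial Qbar) :=
  MvPolynomial.bind₁ (fun p => MvPolynomial.X p.2 ^ (p.1 : ℕ)) q

theorem evM_ofRoots {n : ℕ} (q : MvPolynomial (Fin n × Fin n) (Polynomial Qbar)) (t : ℂ)
    (y : Fin n → ℂ) : evM q t (ofRoots y) = MvPolynomial.eval₂ (ev t) y (subst n q) := by
  have := MvPolynomial.eval₂Hom_bind₁ (ev t) y
    (fun p : Fin n × Fin n => (MvPolynomial.X p.2 ^ (p.1 : ℕ) :
      MvPolynomial (Fin n) (Polynomial Qbar))) q
  rw [MvPolynomial.coe_eval₂Hom] at this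
  unfold subst
  rw [this]
  unfold evM ofRoots
  simp

/-- Points of `B_{P,s}` from specialisations. -/
theorem ofRoots_mem_BFibre {s : Qbar} (b : f.Branch (s : ℂ)) (hs : (s : ℂ) ∈ f.S)
    {t : ℂ} (ht : t ∈ b.U) (y : Fin f.deg → Qbar)
    (hy : ∀ q : MvPolynomial (Fin f.deg) (Polynomial Qbar),
      MvPolynomial.eval₂ (ev t) (fun k => b.x k t) q = 0 →
        MvPolynomial.eval₂ (evalRingHom s) y q = 0) :
    ofRoots (fun k => ((y k : Qbar) : ℂ)) ∈ BFibre b.U (f.P b) (s : ℂ) := by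
  have hprod := specialization_prod (fun k => b.x k t) (map_eq_prod b ht) s y hy
  have hsep : (f.F.map (evalRingHom s)).Separable := by
    have h1 := f.etale (s : ℂ) hs
    rw [ev_coe, ← Polynomial.map_map] at h1
    exact (separable_map _).1 h1
  rw [hprod, separable_prod_X_sub_C_iff] at hsep
  refine ⟨ofRoots_det (fun i j hij => hsep (Subtype.ext hij)), ?_⟩
  intro q hq
  rw [evM_ofRoots]
  have h1 := hq t ht
  rw [P_eq, evM_ofRoots] at h1
  have h2 := hy _ h1
  have h3 : MvPolynomial.eval₂ (ev (s : ℂ)) (fun k => ((y k : Qbar) : ℂ)) (subst f.deg q) =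
      algebraMap Qbar ℂ (MvPolynomial.eval₂ (evalRingHom s) y (subst f.deg q)) := by
    rw [MvPolynomial.eval₂_comp_left (algebraMap Qbar ℂ) (evalRingHom s) y, ← ev_coe]
    rfl
  rw [h3, h2, map_zero]

theorem mem_ZClosure_self {s : ℂ} (b : f.Branch s) : f.P b s ∈ ZClosure (f.P b s) :=
  ⟨P_det b b.mem, fun _ h => h⟩

/-- The key negative statement. -/
theorem hasRelation {G : Polynomial (Polynomial Qbar)} (hG : Irreducible G) (hGm : G.Monic)
    (hdeg : 2 ≤ G.natDegree) (hGF : G ∣ f.F) {s : Qbar} (hs : (s : ℂ) ∈ f.S) {c : ℤ}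
    (hc : eval₂ (evalRingHom s) (c : Qbar) G = 0) (b : f.Branch (s : ℂ))
    (κ : IntermediateField ℚ Qbar) {δ : ℕ} (hδ : 1 ≤ δ) :
    HasRelation b.U (f.P b) (s : ℂ) κ δ := by
  classical
  obtain ⟨H, hH⟩ := hGF
  have hsep : (f.F.map (evalRingHom s)).Separable := by
    have h1 := f.etale (s : ℂ) hs
    rw [ev_coe, ← Polynomial.map_map] at h1
    exact (separable_map _).1 h1
  have hGsep : (G.map (evalRingHom s)).Separable := by
    refine hsep.of_dvd ?_
    rw [hH, Polynomial.map_mul]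
    exact Dvd.intro _ rfl
  -- the root `c` is the value of one of the branches
  have hcG : (G.map (evalRingHom s)).eval (c : Qbar) = 0 := by rw [eval_map]; exact hc
  have hcC : eval₂ (ev (s : ℂ)) (c : ℂ) G = 0 := by
    have h1 := congrArg (algebraMap Qbar ℂ) hc
    rw [Polynomial.hom_eval₂, ← ev_coe, map_zero] at h1
    simpa using h1
  have hcF : (f.F.map (ev (s : ℂ))).eval (c : ℂ) = 0 := by
    rw [eval_map, hH, eval₂_mul, hcC, zero_mul]
  obtain ⟨k, hk⟩ : ∃ k, b.x k (s : ℂ) = (c : ℂ) := by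
    rw [map_eq_prod b b.mem, eval_prod] at hcF
    obtain ⟨k, _, hk⟩ := Finset.prod_eq_zero_iff.1 hcF
    refine ⟨k, ?_⟩
    rw [eval_sub, eval_X, eval_C] at hk
    exact (sub_eq_zero.1 hk).symm
  -- `G` vanishes along the branch
  have hGx : ∀ t ∈ b.U, eval₂ (ev t) (b.x k t) G = 0 := by
    have h1 := AnalyticOnNhd.eq_zero_or_eq_zero_of_mul_eq_zero
      (analyticOnNhd_eval₂ G (b.an k)) (analyticOnNhd_eval₂ H (b.an k)) (fun t ht => by
        have := eval₂_root b ht k
        rwa [hH, eval₂_mul] at this) b.conn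
    rcases h1 with h1 | h1
    · exact h1
    · exfalso
      have h2 := h1 _ b.mem
      rw [hk] at h2
      have h3 : (X - C (c : ℂ)) * (X - C (c : ℂ)) ∣ f.F.map (ev (s : ℂ)) := by
        rw [hH, Polynomial.map_mul]
        refine mul_dvd_mul (dvd_iff_isRoot.2 ?_) (dvd_iff_isRoot.2 ?_)
        · rw [IsRoot, eval_map]; exact hcC
        · rw [IsRoot, eval_map]; exact h2
      have h4 := (f.etale (s : ℂ) hs).squarefree _ h3
      have := natDegree_eq_zero_of_isUnit h4
      rw [natDegree_X_sub_C] at this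
      omega
  obtain ⟨c', hc'ne, hc'⟩ := exists_other_root hGsep
    (by rw [hGm.natDegree_map]; exact hdeg) hcG
  rw [eval_map] at hc'
  obtain ⟨t, htU, ht⟩ := exists_transcendental b.isOpen ⟨_, b.mem⟩
  obtain ⟨y, hyk, hy⟩ := exists_specialization f.monic (ev_injective ht) (fun j => b.x j t)
    (fun j => eval₂_root b htU j) k hG hGm (hGx t htU) s c' hc'
  have hmem := ofRoots_mem_BFibre b hs htU y hy
  have hFdeg : 2 ≤ f.deg := by
    have : G.natDegree ≤ f.F.natDegree := natDegree_le_of_dvd ⟨H, hH⟩ f.monic.ne_zero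
    exact hdeg.trans this
  let i1 : Fin f.deg := ⟨1, hFdeg⟩
  refine ⟨MvPolynomial.X (i1, k) - MvPolynomial.C (c : κ), ?_, ?_, ?_⟩
  · refine (MvPolynomial.totalDegree_sub _ _).trans ?_
    rw [MvPolynomial.totalDegree_X, MvPolynomial.totalDegree_C]
    simpa using hδ
  · intro M hM
    have h1 := hM.2 (MvPolynomial.X (i1, k) - MvPolynomial.C (c : Qbar)) (by
      rw [map_sub, MvPolynomial.aeval_X, MvPolynomial.aeval_C]
      simp [P, i1, hk])
    rw [map_sub, MvPolynomial.aeval_X, MvPolynomial.aeval_C] at h1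
    unfold evK
    rw [map_sub, MvPolynomial.aeval_X, MvPolynomial.aeval_C]
    simpa using h1
  · intro hall
    have h1 := hall _ hmem
    unfold evK at h1
    rw [map_sub, MvPolynomial.aeval_X, MvPolynomial.aeval_C] at h1
    have h2 : ((y k : Qbar) : ℂ) = ((c : Qbar) : ℂ) := by
      have h3 := sub_eq_zero.1 h1
      simpa [ofRoots, i1] using h3
    have h4 : y k = (c : Qbar) := Subtype.ext h2
    exact hc'ne (hyk.symm.trans h4)

end Cover

end Pool.Agent.Helper64.Per
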