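import Pool.Agent.Helper64.Per.Exist

/-!
# Period relations: the pointwise criterion for covers
-/

open Polynomial

namespace Pool.Agent.Helper64.Per

/-- Conjugation of tuples. -/
theorem exists_conj {K L M : Type} [Field K] [Field L] [Field M] [Algebra K L] [Algebra K M]
    [IsAlgClosed M] [Algebra.IsAlgebraic K L] {n : ℕ} (y : Fin n → L) (z : Fin n → M)
    (h : ∀ p : MvPolynomial (Fin n) K, MvPolynomial.aeval y p = 0 → MvPolynomial.aeval z p = 0) :
    ∃ σ : L →ₐ[K] M, ∀ j, σ (y j) = z j := by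
  let f : MvPolynomial (Fin n) K →ₐ[K] L := MvPolynomial.aeval y
  let g : MvPolynomial (Fin n) K →ₐ[K] M := MvPolynomial.aeval z
  have hsurj : Function.Surjective f.rangeRestrict := f.rangeRestrict_surjective
  have hker : ∀ a b, f.rangeRestrict a = f.rangeRestrict b → g a = g b := by
    intro a b hab
    have h1 : f a = f b := congrArg Subtype.val hab
    have h2 : f (a - b) = 0 := by rw [map_sub, h1, sub_self]
    have h3 : g (a - b) = 0 := h _ h2
    rw [map_sub] at h3
    exact sub_eq_zero.1 h3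
  let s := Function.surjInv hsurj
  have hs : ∀ a, f.rangeRestrict (s a) = a := Function.surjInv_eq hsurj
  let φ : f.range →+* M :=
    { toFun := fun a => g (s a)
      map_one' := by
        rw [← map_one g]; exact hker _ _ (by rw [hs, map_one])
      map_mul' := fun a b => by
        rw [← map_mul g]; exact hker _ _ (by rw [hs, map_mul, hs, hs])
      map_zero' := by
        rw [← map_zero g]; exact hker _ _ (by rw [hs, map_zero])
      map_add' := fun a b => by
        rw [← map_add g]; exact hker _ _ (by rw [hs, map_add, hs, hs]) }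
  have hφ : ∀ p, φ (f.rangeRestrict p) = g p := fun p => hker _ _ (hs _)
  let _ : Algebra f.range M := φ.toAlgebra
  have hφK : ∀ r : K, algebraMap f.range M (algebraMap K f.range r) = algebraMap K M r := by
    intro r
    change φ (algebraMap K f.range r) = _
    have h1 : algebraMap K f.range r = f.rangeRestrict (MvPolynomial.C r) := by
      apply Subtype.ext
      change algebraMap K L r = f (MvPolynomial.C r)
      simp [f]
    rw [h1, hφ]
    simp [g]
  have : IsScalarTower K f.range M := IsScalarTower.of_algebraMap_eq (fun r => (hφK r).symm)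
  have hKinj : Function.Injective (algebraMap K f.range) := by
    intro a b hab
    exact (algebraMap K L).injective (congrArg Subtype.val hab)
  have : Algebra.IsAlgebraic f.range L := Algebra.IsAlgebraic.extendScalars (R := K) hKinj
  have hinj : Function.Injective φ := by
    rw [injective_iff_map_eq_zero]
    intro a ha
    -- `a` is algebraic over `K`
    by_contra hne
    obtain ⟨p, hp⟩ := hsurj a
    have haL : (a : L) ≠ 0 := fun h0 => hne (Subtype.ext h0)
    -- the inverse of `a` is a polynomial in `a`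
    have hint : IsIntegral K (a : L) := Algebra.IsIntegral.isIntegral _
    have hmem : ((a : L))⁻¹ ∈ Algebra.adjoin K {(a : L)} := IsIntegral.inv_mem_adjoin hint
    rw [Algebra.adjoin_singleton_eq_range_aeval] at hmem
    obtain ⟨q, hq⟩ := hmem
    have hq' : aeval (a : L) q = ((a : L))⁻¹ := hq
    have h1 : f (aeval p (X * q - 1 : Polynomial K)) = 0 := by
      rw [← Polynomial.aeval_algHom_apply]
      have hfp : f p = (a : L) := congrArg Subtype.val hp
      rw [hfp, map_sub, map_mul, aeval_X, hq', map_one, mul_inv_cancel₀ haL, sub_self]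
    have h2 : g (aeval p (X * q - 1 : Polynomial K)) = 0 := h _ h1
    rw [← Polynomial.aeval_algHom_apply, map_sub, map_mul, aeval_X, map_one] at h2
    have h3 : g p = 0 := by rw [← hφ, hp]; exact ha
    rw [h3, zero_mul, zero_sub] at h2
    exact one_ne_zero (neg_eq_zero.1 h2)
  have hinj' : Function.Injective (algebraMap f.range M) := hinj
  have : FaithfulSMul f.range M := (faithfulSMul_iff_algebraMap_injective f.range M).2 hinj'
  have hinj2 : Function.Injective (algebraMap f.range L) := Subtype.val_injective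
  have : FaithfulSMul f.range L := (faithfulSMul_iff_algebraMap_injective f.range L).2 hinj2
  let τ : L →ₐ[f.range] M := IsAlgClosed.lift
  refine ⟨τ.restrictScalars K, fun j => ?_⟩
  have h1 : y j = algebraMap f.range L (f.rangeRestrict (MvPolynomial.X j)) := by
    change y j = f (MvPolynomial.X j)
    simp [f]
  change τ (y j) = z j
  rw [h1, τ.commutes]
  change φ _ = z j
  rw [hφ]
  simp [g]

namespace Cover

variable (f : Cover)

/-- Entry `(1, k)` of a point of `B_{P,s}` is a root of the fibre equation. -/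
theorem entry_root {s : ℂ} (b : f.Branch s) (h2 : 2 ≤ f.deg) {M : Matrix (Fin f.deg) (Fin f.deg) ℂ}
    (hM : M ∈ BFibre b.U (f.P b) s) (k : Fin f.deg) :
    eval₂ (ev s) (M ⟨1, h2⟩ k) f.F = 0 := by
  have key : ∀ (t : ℂ) (N : Matrix (Fin f.deg) (Fin f.deg) ℂ),
      evM (eval₂ (MvPolynomial.C) (MvPolynomial.X ((⟨1, h2⟩ : Fin f.deg), k)) f.F) t N =
        eval₂ (ev t) (N ⟨1, h2⟩ k) f.F := by
    intro t N
    have h3 := Polynomial.hom_eval₂ f.F (MvPolynomial.C : Polynomial Qbar →+*
      MvPolynomial (Fin f.deg × Fin f.deg) (Polynomial Qbar))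
      (MvPolynomial.eval₂Hom (ev t) (fun p => N p.1 p.2))
      (MvPolynomial.X ((⟨1, h2⟩ : Fin f.deg), k))
    have h4 : (MvPolynomial.eval₂Hom (ev t) (fun p : Fin f.deg × Fin f.deg => N p.1 p.2)).comp
        (MvPolynomial.C) = ev t := by
      refine RingHom.ext (fun p => ?_)
      simp
    rw [h4, MvPolynomial.coe_eval₂Hom, MvPolynomial.eval₂_X] at h3
    exact h3
  rw [← key]
  refine hM.2 _ (fun t ht => ?_)
  rw [key]
  have : f.P b t ⟨1, h2⟩ k = b.x k t := by simp [P]
  rw [this]
  exact eval₂_root b ht k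

/-- The other entries are powers. -/
theorem entry_pow {s : ℂ} (b : f.Branch s) (h2 : 2 ≤ f.deg) {M : Matrix (Fin f.deg) (Fin f.deg) ℂ}
    (hM : M ∈ BFibre b.U (f.P b) s) (i k : Fin f.deg) :
    M i k = M ⟨1, h2⟩ k ^ (i : ℕ) := by
  have h1 := hM.2 (MvPolynomial.X (i, k) - MvPolynomial.X ((⟨1, h2⟩ : Fin f.deg), k) ^ (i : ℕ))
    (fun t ht => by
      unfold evM
      rw [MvPolynomial.eval₂_sub, MvPolynomial.eval₂_pow, MvPolynomial.eval₂_X,
        MvPolynomial.eval₂_X]
      simp [P])
  unfold evM at h1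
  rw [MvPolynomial.eval₂_sub, MvPolynomial.eval₂_pow, MvPolynomial.eval₂_X,
    MvPolynomial.eval₂_X] at h1
  exact sub_eq_zero.1 h1

theorem entry_algebraic {s : Qbar} {z : ℂ}
    (hz : eval₂ (ev (s : ℂ)) z f.F = 0) : ∃ w : Qbar, (w : ℂ) = z := by
  have h1 : (f.F.map (ev (s : ℂ))).IsRoot z := by rw [IsRoot, eval_map]; exact hz
  have h2 : f.F.map (ev (s : ℂ)) = (f.F.map (evalRingHom s)).map (algebraMap Qbar ℂ) := by
    rw [ev_coe, Polynomial.map_map]
  rw [h2] at h1
  obtain ⟨w, hw⟩ := (IsAlgClosed.splits (f.F.map (evalRingHom s))).mem_range_of_isRoot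
    (f.monic.map _).ne_zero h1
  exact ⟨w, hw⟩

theorem evK_coe {n : ℕ} (κ : IntermediateField ℚ Qbar) (r : MvPolynomial (Fin n × Fin n) κ)
    (N : Fin n × Fin n → Qbar) (M : Matrix (Fin n) (Fin n) ℂ)
    (hM : ∀ i k, M i k = ((N (i, k) : Qbar) : ℂ)) :
    evK κ r M = ((MvPolynomial.aeval N r : Qbar) : ℂ) := by
  unfold evK
  have h1 : (fun p : Fin n × Fin n => M p.1 p.2) = fun p => algebraMap Qbar ℂ (N p) := by
    funext p
    exact hM p.1 p.2
  rw [h1]
  exact MvPolynomial.aeval_algebraMap_apply ℂ N r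

instance instIsAlgebraicQbar (κ : IntermediateField ℚ Qbar) : Algebra.IsAlgebraic κ Qbar := by
  have : Algebra.IsAlgebraic ℚ Qbar := (algebraicClosure.isAlgClosure ℚ ℂ).isAlgebraic
  exact Algebra.IsAlgebraic.tower_top (K := ℚ) κ

theorem ZClosure_algebraic {n : ℕ} {P₀ : Matrix (Fin n) (Fin n) ℂ} {N : Fin n × Fin n → Qbar}
    (hN : ∀ i k, P₀ i k = ((N (i, k) : Qbar) : ℂ)) {M : Matrix (Fin n) (Fin n) ℂ}
    (hM : M ∈ ZClosure P₀) : M = P₀ := by
  ext i k
  have h1 := hM.2 (MvPolynomial.X (i, k) - MvPolynomial.C (N (i, k))) (by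
    rw [map_sub, MvPolynomial.aeval_X, MvPolynomial.aeval_C]
    exact sub_eq_zero.2 (hN i k))
  rw [map_sub, MvPolynomial.aeval_X, MvPolynomial.aeval_C] at h1
  exact (sub_eq_zero.1 h1).trans (hN i k).symm

/-- **Pointwise criterion**: no relation of any degree over `κ` exists at `s` iff `B_{P,s}`
consists of `κ`-conjugates of `P(s)`. -/
theorem criterion {s : Qbar} (b : f.Branch (s : ℂ)) (κ : IntermediateField ℚ Qbar)
    (y : Fin f.deg → Qbar) (hy : ∀ k, (y k : ℂ) = b.x k (s : ℂ)) :
    (∀ δ, ¬ HasRelation b.U (f.P b) (s : ℂ) κ δ) ↔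
      ∀ M ∈ BFibre b.U (f.P b) (s : ℂ), ∃ σ : Qbar →ₐ[κ] Qbar,
        M = ofRoots (fun k => ((σ (y k) : Qbar) : ℂ)) := by
  have hP : f.P b (s : ℂ) = ofRoots (fun k => ((y k : Qbar) : ℂ)) := by
    rw [P_eq]
    congr 1
    funext k
    exact (hy k).symm
  have hPe : ∀ i k, f.P b (s : ℂ) i k = (((fun p : Fin f.deg × Fin f.deg => y p.2 ^ (p.1 : ℕ))
      (i, k) : Qbar) : ℂ) := by
    intro i k
    rw [hP]
    simp [ofRoots]
  constructor
  · intro h M hM
    by_cases h2 : 2 ≤ f.deg
    · have hz : ∀ k, ∃ w : Qbar, (w : ℂ) = M ⟨1, h2⟩ k :=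
        fun k => f.entry_algebraic (f.entry_root b h2 hM k)
      choose z hz using hz
      have hMe : ∀ i k, M i k = (((fun p : Fin f.deg × Fin f.deg => z p.2 ^ (p.1 : ℕ))
          (i, k) : Qbar) : ℂ) := by
        intro i k
        rw [f.entry_pow b h2 hM i k, ← hz k]
        simp
      obtain ⟨σ, hσ⟩ := exists_conj (K := κ) (L := Qbar) (M := Qbar) y z (by
        intro p hp
        by_contra hne
        refine h _ ⟨MvPolynomial.rename (fun k => ((⟨1, h2⟩ : Fin f.deg), k)) p, le_rfl, ?_, ?_⟩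
        · intro M' hM'
          rw [ZClosure_algebraic (N := fun p : Fin f.deg × Fin f.deg => y p.2 ^ (p.1 : ℕ)) hPe hM', evK_coe κ _ (fun p : Fin f.deg × Fin f.deg => y p.2 ^ (p.1 : ℕ)) _ hPe, MvPolynomial.aeval_rename]
          have h3 : ((fun p : Fin f.deg × Fin f.deg => y p.2 ^ (p.1 : ℕ)) ∘
              fun k => ((⟨1, h2⟩ : Fin f.deg), k)) = y := by
            funext k
            simp
          rw [h3, hp]
          rfl
        · intro hall
          have h4 := hall M hM
          rw [evK_coe κ _ (fun p : Fin f.deg × Fin f.deg => z p.2 ^ (p.1 : ℕ)) _ hMe,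
            MvPolynomial.aeval_rename] at h4
          have h3 : ((fun p : Fin f.deg × Fin f.deg => z p.2 ^ (p.1 : ℕ)) ∘
              fun k => ((⟨1, h2⟩ : Fin f.deg), k)) = z := by
            funext k
            simp
          rw [h3] at h4
          exact hne (Subtype.ext h4))
      refine ⟨σ, ?_⟩
      ext i k
      rw [f.entry_pow b h2 hM i k, ← hz k, ← hσ k]
      simp [ofRoots]
    · refine ⟨AlgHom.id κ Qbar, ?_⟩
      ext i k
      have hi : (i : ℕ) = 0 := by omega
      have h1 := hM.2 (MvPolynomial.X (i, k) - 1) (fun t ht => by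
        unfold evM
        rw [MvPolynomial.eval₂_sub, MvPolynomial.eval₂_X, MvPolynomial.eval₂_one]
        simp [P, hi])
      unfold evM at h1
      rw [MvPolynomial.eval₂_sub, MvPolynomial.eval₂_X, MvPolynomial.eval₂_one] at h1
      have h5 : M i k = 1 := sub_eq_zero.1 h1
      rw [h5]
      simp [ofRoots, hi]
  · intro h δ
    rintro ⟨r, _, hZ, hB⟩
    apply hB
    intro M hM
    obtain ⟨σ, hσ⟩ := h M hM
    have h1 := hZ _ (mem_ZClosure_self b)
    rw [evK_coe κ _ (fun p : Fin f.deg × Fin f.deg => y p.2 ^ (p.1 : ℕ)) _ hPe] at h1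
    have hMe : ∀ i k, M i k = (((fun p : Fin f.deg × Fin f.deg => σ (y p.2) ^ (p.1 : ℕ))
        (i, k) : Qbar) : ℂ) := by
      intro i k
      rw [hσ]
      simp [ofRoots]
    rw [evK_coe κ _ (fun p : Fin f.deg × Fin f.deg => σ (y p.2) ^ (p.1 : ℕ)) _ hMe]
    have h6 : (fun p : Fin f.deg × Fin f.deg => σ (y p.2) ^ (p.1 : ℕ)) =
        fun p => σ ((fun p : Fin f.deg × Fin f.deg => y p.2 ^ (p.1 : ℕ)) p) := by
      funext p
      simp
    rw [h6]
    have h7 : MvPolynomial.aeval (fun p => σ ((fun p : Fin f.deg × Fin f.deg =>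
        y p.2 ^ (p.1 : ℕ)) p)) r = σ (MvPolynomial.aeval (fun p : Fin f.deg × Fin f.deg =>
        y p.2 ^ (p.1 : ℕ)) r) := by
      rw [← MvPolynomial.comp_aeval_apply]
    have h8 : (MvPolynomial.aeval (fun p : Fin f.deg × Fin f.deg => y p.2 ^ (p.1 : ℕ)) r : Qbar)
        = 0 := Subtype.ext h1
    rw [h7, h8, map_zero]
    rfl

end Cover

end Pool.Agent.Helper64.Per
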