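import Pool.Agent.Helper64.Per.Exist

/-!
# Period relations: pushforwards along `u ↦ u²` (any degree `j`)
-/

open Polynomial
open scoped Topology

namespace Pool.Agent.Helper64.Per

/-- Let `Y` be a family over an open part of the `u`-line, `π : u ↦ t = u²`, and let `X` be the
family over the `t`-line with fibre `Y_u ⊔ Y_{-u}` (or, for `j = 1`, with fibre `Y_u × Y_{-u}`).
If `Q₁ u` and `Q₂ u` are the period matrices of `Y_u` and `Y_{-u}` in bases `e_i` of the de Rham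
cohomology of `Y`, this is the period matrix of `X` at `t = u²` in the basis `e_i, u e_i`. -/
def PB {m : ℕ} (Q₁ Q₂ : ℂ → Matrix (Fin m) (Fin m) ℂ) (u : ℂ) :
    Matrix (Fin m ⊕ Fin m) (Fin m ⊕ Fin m) ℂ :=
  Matrix.fromBlocks (Q₁ u) (Q₂ u) (u • Q₁ u) (-(u • Q₂ u))

/-- An analytic branch `w` of the square root near `c²`, with `w (c²) = c`, defined on a connected
open set `U` and with values in `W`. -/
structure SqrtBranch (W : Set ℂ) (c : ℂ) where
  /-- the domain -/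
  U : Set ℂ
  isOpen : IsOpen U
  conn : IsPreconnected U
  mem : c ^ 2 ∈ U
  /-- the square root -/
  w : ℂ → ℂ
  an : AnalyticOnNhd ℂ w U
  sq : ∀ t ∈ U, w t ^ 2 = t
  maps : ∀ t ∈ U, w t ∈ W
  val : w (c ^ 2) = c

theorem exists_sqrtBranch {W : Set ℂ} (hW : IsOpen W) {c : ℂ} (hc : c ≠ 0) (hcW : c ∈ W) :
    Nonempty (SqrtBranch W c) := by
  have hG : ∀ t u : ℂ, eval₂ (ev t) u (X ^ 2 - C X : Polynomial (Polynomial Qbar)) = u ^ 2 - t := by
    intro t u
    rw [eval₂_sub, eval₂_pow, eval₂_X, eval₂_C, ev_X]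
  obtain ⟨ψ, hψ, han, hroot⟩ := exists_localRoot (X ^ 2 - C X : Polynomial (Polynomial Qbar))
    (s := c ^ 2) (ρ := c) (by rw [hG, sub_self]) (by
      simp only [Polynomial.map_sub, Polynomial.map_pow, map_X, map_C, derivative_sub,
        derivative_X_pow, derivative_C, sub_zero, eval_mul, eval_pow, eval_X, eval_C]
      simpa using hc)
  have h3 : ∀ᶠ t in 𝓝 (c ^ 2), ψ t ∈ W :=
    han.continuousAt.eventually (by rw [hψ]; exact hW.mem_nhds hcW)
  obtain ⟨r, hr, hball⟩ := Metric.eventually_nhds_iff_ball.1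
    ((han.eventually_analyticAt.and hroot).and h3)
  refine ⟨{
    U := Metric.ball (c ^ 2) r
    isOpen := Metric.isOpen_ball
    conn := (convex_ball _ r).isPreconnected
    mem := Metric.mem_ball_self hr
    w := ψ
    an := fun t ht => (hball t ht).1.1
    sq := fun t ht => by
      have := (hball t ht).1.2
      rw [hG] at this
      exact sub_eq_zero.1 this
    maps := fun t ht => (hball t ht).2
    val := hψ }⟩

theorem PB_det {m : ℕ} {Q₁ Q₂ : ℂ → Matrix (Fin m) (Fin m) ℂ} {u : ℂ} (hu : u ≠ 0)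
    (h₁ : IsUnit (Q₁ u).det) (h₂ : IsUnit (Q₂ u).det) : IsUnit (PB Q₁ Q₂ u).det := by
  have h : PB Q₁ Q₂ u = Matrix.fromBlocks 1 1 (u • (1 : Matrix (Fin m) (Fin m) ℂ))
      (-(u • (1 : Matrix (Fin m) (Fin m) ℂ))) * Matrix.fromBlocks (Q₁ u) 0 0 (Q₂ u) := by
    rw [Matrix.fromBlocks_multiply]
    simp [PB]
  rw [h, Matrix.det_mul, Matrix.det_fromBlocks_one₁₁, Matrix.det_fromBlocks_zero₂₁]
  have h3 : (-(u • (1 : Matrix (Fin m) (Fin m) ℂ)) - u • (1 : Matrix (Fin m) (Fin m) ℂ) * 1) =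
      (-(2 * u)) • (1 : Matrix (Fin m) (Fin m) ℂ) := by
    rw [Matrix.mul_one]
    rw [neg_smul, two_mul, add_smul]
    abel
  rw [h3, Matrix.det_smul, Matrix.det_one, mul_one]
  refine IsUnit.mul ?_ (h₁.mul h₂)
  exact (isUnit_iff_ne_zero.2 (neg_ne_zero.2 (mul_ne_zero two_ne_zero hu))).pow _

theorem evM_analytic {m : ℕ} {Q₁ Q₂ : ℂ → Matrix (Fin m) (Fin m) ℂ} {W : Set ℂ}
    (h₁ : ∀ i k, AnalyticOnNhd ℂ (fun u => Q₁ u i k) W)
    (h₂ : ∀ i k, AnalyticOnNhd ℂ (fun u => Q₂ u i k) W)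
    (q : MvPolynomial ((Fin m ⊕ Fin m) × (Fin m ⊕ Fin m)) (Polynomial Qbar)) :
    AnalyticOnNhd ℂ (fun u => evM q (u ^ 2) (PB Q₁ Q₂ u)) W := by
  have hent : ∀ p : (Fin m ⊕ Fin m) × (Fin m ⊕ Fin m),
      AnalyticOnNhd ℂ (fun u => PB Q₁ Q₂ u p.1 p.2) W := by
    rintro ⟨i, k⟩
    have hid : AnalyticOnNhd ℂ (fun u : ℂ => u) W := fun u _ => analyticAt_id
    rcases i with i | i <;> rcases k with k | k
    · exact h₁ i k
    · exact h₂ i k
    · exact hid.mul (h₁ i k)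
    · exact (hid.mul (h₂ i k)).neg
  induction q using MvPolynomial.induction_on with
  | C a =>
    intro u _
    have h : (fun u : ℂ => evM (MvPolynomial.C a :
        MvPolynomial ((Fin m ⊕ Fin m) × (Fin m ⊕ Fin m)) (Polynomial Qbar)) (u ^ 2)
        (PB Q₁ Q₂ u)) = fun u => Polynomial.aeval (u ^ 2) a := by
      funext u
      unfold evM
      rw [MvPolynomial.eval₂_C]
      rfl
    rw [h]
    exact (analyticAt_id.pow 2).aeval_polynomial a
  | add p q hp hq =>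
    intro u hu
    have h : (fun u : ℂ => evM (p + q) (u ^ 2) (PB Q₁ Q₂ u)) =
        fun u => evM p (u ^ 2) (PB Q₁ Q₂ u) + evM q (u ^ 2) (PB Q₁ Q₂ u) := by
      funext u
      unfold evM
      rw [MvPolynomial.eval₂_add]
    rw [h]
    exact (hp u hu).add (hq u hu)
  | mul_X p j hp =>
    intro u hu
    have h : (fun u : ℂ => evM (p * MvPolynomial.X j) (u ^ 2) (PB Q₁ Q₂ u)) =
        fun u => evM p (u ^ 2) (PB Q₁ Q₂ u) * PB Q₁ Q₂ u j.1 j.2 := by
      funext u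
      unfold evM
      rw [MvPolynomial.eval₂_mul, MvPolynomial.eval₂_X]
    rw [h]
    exact (hp u hu).mul (hent j u hu)

theorem SqrtBranch.eventually_eq {W : Set ℂ} {c : ℂ} (hc : c ≠ 0) (b : SqrtBranch W c) :
    ∀ᶠ u in 𝓝 c, u ^ 2 ∈ b.U ∧ b.w (u ^ 2) = u := by
  have hsq : Filter.Tendsto (fun u : ℂ => u ^ 2) (𝓝 c) (𝓝 (c ^ 2)) :=
    (continuous_pow 2).continuousAt
  have h1 : ∀ᶠ u in 𝓝 c, u ^ 2 ∈ b.U := hsq.eventually (b.isOpen.mem_nhds b.mem)
  have h2 : ContinuousAt (fun u : ℂ => b.w (u ^ 2) + u) c := by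
    have : ContinuousAt (fun u : ℂ => b.w (u ^ 2)) c :=
      ContinuousAt.comp (f := fun u : ℂ => u ^ 2) (g := b.w)
        (b.an _ b.mem).continuousAt hsq
    exact this.add continuousAt_id
  have h3 : b.w (c ^ 2) + c ≠ 0 := by
    rw [b.val, ← two_mul]
    exact mul_ne_zero two_ne_zero hc
  filter_upwards [h1, h2.eventually_ne h3] with u hu hne
  refine ⟨hu, ?_⟩
  have h4 : (b.w (u ^ 2) - u) * (b.w (u ^ 2) + u) = 0 := by
    have := b.sq _ hu
    linear_combination this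
  rcases mul_eq_zero.1 h4 with h5 | h5
  · exact sub_eq_zero.1 h5
  · exact absurd h5 hne

/-- In every degree, the pushforward of a family along `u ↦ u²` has a linear relation over `κ` at
`s = c²`, for every `c ∈ κ`, `c ≠ 0`. -/
theorem hasRelation_PB {m : ℕ} (i₀ : Fin m) {Q₁ Q₂ : ℂ → Matrix (Fin m) (Fin m) ℂ} {W : Set ℂ}
    (hW : IsPreconnected W)
    (h₁ : ∀ i k, AnalyticOnNhd ℂ (fun u => Q₁ u i k) W)
    (h₂ : ∀ i k, AnalyticOnNhd ℂ (fun u => Q₂ u i k) W)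
    (d₁ : ∀ u ∈ W, IsUnit (Q₁ u).det) (d₂ : ∀ u ∈ W, IsUnit (Q₂ u).det)
    {c : Qbar} (hc : c ≠ 0) (hcW : (c : ℂ) ∈ W) (hcW' : -(c : ℂ) ∈ W) (b : SqrtBranch W (c : ℂ))
    {κ : IntermediateField ℚ Qbar} (hcκ : c ∈ κ) {δ : ℕ} (hδ : 1 ≤ δ) :
    HasRelation b.U (fun t => PB Q₁ Q₂ (b.w t)) ((c : ℂ) ^ 2) κ δ := by
  have hc0 : (c : ℂ) ≠ 0 := fun h => hc (Subtype.ext h)
  have hnc0 : -(c : ℂ) ≠ 0 := neg_ne_zero.2 hc0
  -- the other point of `B_{P,s}`
  have hmem : PB Q₁ Q₂ (-(c : ℂ)) ∈ BFibre b.U (fun t => PB Q₁ Q₂ (b.w t)) ((c : ℂ) ^ 2) := by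
    refine ⟨PB_det hnc0 (d₁ _ hcW') (d₂ _ hcW'), fun q hq => ?_⟩
    have hz : Set.EqOn (fun u => evM q (u ^ 2) (PB Q₁ Q₂ u)) 0 W := by
      refine (evM_analytic h₁ h₂ q).eqOn_zero_of_preconnected_of_eventuallyEq_zero hW hcW ?_
      filter_upwards [b.eventually_eq hc0] with u hu
      have h0 : evM q (u ^ 2) (PB Q₁ Q₂ (b.w (u ^ 2))) = 0 := hq _ hu.1
      rw [hu.2] at h0
      exact h0
    have := hz hcW'
    simpa using this
  -- a nonzero entry of `Q₁ (-c)`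
  obtain ⟨i, k, hik⟩ : ∃ i k, Q₁ (-(c : ℂ)) i k ≠ 0 := by
    by_contra hno
    push Not at hno
    have h0 : Q₁ (-(c : ℂ)) = 0 := by
      ext i k
      exact hno i k
    have h1 := d₁ _ hcW'
    have : Nonempty (Fin m) := ⟨i₀⟩
    rw [h0, Matrix.det_zero] at h1
    exact not_isUnit_zero h1
  have hr : ∀ M : Matrix (Fin m ⊕ Fin m) (Fin m ⊕ Fin m) ℂ,
      evK κ (MvPolynomial.X (Sum.inr i, Sum.inl k) - MvPolynomial.C (⟨c, hcκ⟩ : κ) *
        MvPolynomial.X (Sum.inl i, Sum.inl k)) M =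
        M (Sum.inr i) (Sum.inl k) - (c : ℂ) * M (Sum.inl i) (Sum.inl k) := by
    intro M
    unfold evK
    rw [map_sub, map_mul, MvPolynomial.aeval_X, MvPolynomial.aeval_X, MvPolynomial.aeval_C]
    rfl
  refine ⟨MvPolynomial.X (Sum.inr i, Sum.inl k) - MvPolynomial.C (⟨c, hcκ⟩ : κ) *
    MvPolynomial.X (Sum.inl i, Sum.inl k), ?_, ?_, ?_⟩
  · refine (MvPolynomial.totalDegree_sub _ _).trans ?_
    rw [MvPolynomial.totalDegree_X]
    refine (max_le le_rfl ?_).trans hδ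
    refine (MvPolynomial.totalDegree_mul _ _).trans ?_
    rw [MvPolynomial.totalDegree_C, MvPolynomial.totalDegree_X]
  · intro M hM
    rw [hr]
    have h1 := hM.2 (MvPolynomial.X (Sum.inr i, Sum.inl k) - MvPolynomial.C c *
      MvPolynomial.X (Sum.inl i, Sum.inl k)) (by
      rw [map_sub, map_mul, MvPolynomial.aeval_X, MvPolynomial.aeval_X, MvPolynomial.aeval_C]
      simp only [PB, b.val, Matrix.fromBlocks_apply₂₁, Matrix.fromBlocks_apply₁₁,
        Matrix.smul_apply, smul_eq_mul]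
      exact sub_self _)
    rw [map_sub, map_mul, MvPolynomial.aeval_X, MvPolynomial.aeval_X, MvPolynomial.aeval_C] at h1
    exact h1
  · intro hall
    have h1 := hall _ hmem
    rw [hr] at h1
    simp only [PB, Matrix.fromBlocks_apply₂₁, Matrix.fromBlocks_apply₁₁,
        Matrix.smul_apply, smul_eq_mul] at h1
    have h2 : (-2 * (c : ℂ)) * Q₁ (-(c : ℂ)) i k = 0 := by linear_combination h1
    rcases mul_eq_zero.1 h2 with h3 | h3
    · exact mul_ne_zero (by norm_num) hc0 h3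
    · exact hik h3

end Pool.Agent.Helper64.Per
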