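import Pool.Agent.Helper64.Per.Cov

/-!
# Period relations: existence of local branches, and the case of trivial monodromy
-/

open Polynomial
open scoped Topology ContDiff

namespace Pool.Agent.Helper64.Per

theorem exists_localRoot (G : Polynomial (Polynomial Qbar)) {s ρ : ℂ}
    (h0 : eval₂ (ev s) ρ G = 0) (h1 : (derivative (G.map (ev s))).eval ρ ≠ 0) :
    ∃ ψ : ℂ → ℂ, ψ s = ρ ∧ AnalyticAt ℂ ψ s ∧ ∀ᶠ t in 𝓝 s, eval₂ (ev t) (ψ t) G = 0 := by
  let Φ : ℂ × ℂ → ℂ := fun p => ∑ i ∈ Finset.range (G.natDegree + 1),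
    Polynomial.aeval p.1 (G.coeff i) * p.2 ^ i
  have hΦ : ∀ t u : ℂ, Φ (t, u) = eval₂ (ev t) u G := by
    intro t u
    rw [eval₂_eq_sum_range]
    rfl
  have han : AnalyticAt ℂ Φ (s, ρ) := by
    refine Finset.analyticAt_fun_sum _ (fun i _ => ?_)
    exact (analyticAt_fst.aeval_polynomial (G.coeff i)).mul (analyticAt_snd.pow i)
  have hcd : ContDiffAt ℂ ω Φ (s, ρ) := han.contDiffAt
  have hder : HasDerivAt (fun u => Φ (s, u)) (fderiv ℂ Φ (s, ρ) (0, 1)) ρ := by
    have h2 : HasFDerivAt Φ (fderiv ℂ Φ (s, ρ)) (s, ρ) :=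
      han.differentiableAt.hasFDerivAt
    have h3 : HasDerivAt (fun u : ℂ => (s, u)) ((0 : ℂ), (1 : ℂ)) ρ :=
      (hasDerivAt_const ρ s).prodMk (hasDerivAt_id ρ)
    exact h2.comp_hasDerivAt ρ h3
  have hder' : HasDerivAt (fun u => Φ (s, u)) ((derivative (G.map (ev s))).eval ρ) ρ := by
    have h2 := (G.map (ev s)).hasDerivAt ρ
    have h3 : (fun u => Φ (s, u)) = fun u => (G.map (ev s)).eval u := by
      funext u
      rw [hΦ, eval_map]
    rw [h3]
    exact h2
  have hval : fderiv ℂ Φ (s, ρ) (0, 1) = (derivative (G.map (ev s))).eval ρ := hder.unique hder'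
  have hinv : (fderiv ℂ Φ (s, ρ) ∘L .inr ℂ ℂ ℂ).IsInvertible := by
    refine ⟨ContinuousLinearEquiv.unitsEquivAut ℂ (Units.mk0 _ h1), ?_⟩
    ext
    simp [hval]
  let ψ := hcd.implicitFunction (by simp) hinv
  refine ⟨ψ, hcd.implicitFunction_apply_self (by simp) hinv, ?_, ?_⟩
  · have h2 := hcd.contDiffAt_implicitFunction (by simp) hinv
    have h3 := contDiffWithinAt_omega_iff_analyticWithinAt.1 (contDiffWithinAt_univ.2 h2)
    exact analyticWithinAt_univ.1 h3
  · have h2 := hcd.eventually_apply_implicitFunction (by simp) hinv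
    filter_upwards [h2] with t ht
    rw [hΦ, hΦ, h0] at ht
    exact ht

namespace Cover

variable (f : Cover)

theorem exists_branch {s : ℂ} (hs : s ∈ f.S) : Nonempty (f.Branch s) := by
  classical
  have hsep := f.etale s hs
  have hmon : (f.F.map (ev s)).Monic := f.monic.map _
  have hsplit := IsAlgClosed.splits (f.F.map (ev s))
  have hcard : (f.F.map (ev s)).roots.toFinset.card = f.deg := by
    rw [Multiset.toFinset_card_of_nodup (nodup_roots hsep), ← hsplit.natDegree_eq_card_roots,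
      f.monic.natDegree_map]
    rfl
  let e := ((f.F.map (ev s)).roots.toFinset.equivFinOfCardEq hcard).symm
  let ρ : Fin f.deg → ℂ := fun k => (e k : ℂ)
  have hρinj : Function.Injective ρ := fun i j hij => e.injective (Subtype.ext hij)
  have hρroot : ∀ k, (f.F.map (ev s)).eval (ρ k) = 0 := by
    intro k
    have := (e k).2
    rw [Multiset.mem_toFinset, mem_roots hmon.ne_zero] at this
    exact this
  have hρder : ∀ k, (derivative (f.F.map (ev s))).eval (ρ k) ≠ 0 := by
    intro k h0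
    exact hsep.eval₂_derivative_ne_zero (RingHom.id ℂ) (x := ρ k) (by
      rw [eval₂_id]; exact hρroot k) (by rw [eval₂_id]; exact h0)
  have hloc := fun k => exists_localRoot f.F (s := s) (ρ := ρ k)
    (by rw [← eval_map]; exact hρroot k) (hρder k)
  choose ψ hψs hψan hψroot using hloc
  have h1 : ∀ᶠ t in 𝓝 s, ∀ k, AnalyticAt ℂ (ψ k) t :=
    Filter.eventually_all.2 (fun k => (hψan k).eventually_analyticAt)
  have h2 : ∀ᶠ t in 𝓝 s, ∀ k, eval₂ (ev t) (ψ k t) f.F = 0 :=
    Filter.eventually_all.2 (fun k => hψroot k)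
  have h3 : ∀ᶠ t in 𝓝 s, ∀ j k, j ≠ k → ψ j t ≠ ψ k t := by
    refine Filter.eventually_all.2 (fun j => Filter.eventually_all.2 (fun k => ?_))
    by_cases hjk : j = k
    · exact Filter.Eventually.of_forall (fun t h => absurd hjk h)
    · have hne : ψ j s ≠ ψ k s := by
        rw [hψs, hψs]
        exact fun h => hjk (hρinj h)
      have := ((hψan j).continuousAt.sub (hψan k).continuousAt).eventually_ne
        (sub_ne_zero.2 hne)
      filter_upwards [this] with t ht _
      exact sub_ne_zero.1 ht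
  have h4 : ∀ᶠ t in 𝓝 s, ev t f.D ≠ 0 := by
    have hc : ContinuousAt (fun t => ev t f.D) s := by
      have : AnalyticAt ℂ (fun t : ℂ => Polynomial.aeval t f.D) s :=
        analyticAt_id.aeval_polynomial f.D
      exact this.continuousAt
    exact hc.eventually_ne hs
  obtain ⟨r, hr, hball⟩ := Metric.eventually_nhds_iff_ball.1 ((h1.and h2).and (h3.and h4))
  exact ⟨{
    U := Metric.ball s r
    isOpen := Metric.isOpen_ball
    conn := (convex_ball s r).isPreconnected
    mem := Metric.mem_ball_self hr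
    sub := fun t ht => (hball t ht).2.2
    x := ψ
    an := fun k t ht => (hball t ht).1.1 k
    root := fun k t ht => by rw [eval_map]; exact (hball t ht).1.2 k
    inj := fun t ht i j hij => by
      by_contra hne
      exact (hball t ht).2.1 i j hne hij }⟩

/-- Trivial monodromy: the branches are polynomials. -/
theorem exists_eq_of_trivial (hT : f.Trivial) {s : ℂ} (b : f.Branch s) (k : Fin f.deg) :
    ∃ a : Polynomial Qbar, ∀ t ∈ b.U, b.x k t = ev t a := by
  obtain ⟨a, ha⟩ := hT
  have key : ∀ (T : Finset (Fin f.deg)),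
      (∀ t ∈ b.U, ∏ j ∈ T, (b.x k t - ev t (a j)) = 0) →
      ∃ j, ∀ t ∈ b.U, b.x k t = ev t (a j) := by
    intro T
    induction T using Finset.induction_on with
    | empty =>
      intro h
      have := h _ b.mem
      simp at this
    | @insert j T hj ih =>
      intro h
      have hanj : AnalyticOnNhd ℂ (fun t => b.x k t - ev t (a j)) b.U := by
        intro t ht
        exact (b.an k t ht).sub (analyticAt_id.aeval_polynomial (a j))
      have hanT : AnalyticOnNhd ℂ (fun t => ∏ j ∈ T, (b.x k t - ev t (a j))) b.U := by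
        intro t ht
        refine Finset.analyticAt_fun_prod _ (fun i _ => ?_)
        exact (b.an k t ht).sub (analyticAt_id.aeval_polynomial (a i))
      rcases AnalyticOnNhd.eq_zero_or_eq_zero_of_mul_eq_zero hanj hanT (fun t ht => by
        have := h t ht
        rwa [Finset.prod_insert hj] at this) b.conn with h1 | h1
      · exact ⟨j, fun t ht => sub_eq_zero.1 (h1 t ht)⟩
      · exact ih h1
  obtain ⟨j, hj⟩ := key Finset.univ (fun t ht => by
    have h1 := eval₂_root b ht k
    rw [ha, eval₂_finsetProd] at h1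
    simpa [eval₂_sub, eval₂_X, eval₂_C] using h1)
  exact ⟨a j, hj⟩

theorem BFibre_of_trivial (hT : f.Trivial) {s : Qbar} (b : f.Branch (s : ℂ)) :
    ∀ M ∈ BFibre b.U (f.P b) (s : ℂ), M = f.P b (s : ℂ) := by
  intro M hM
  ext i k
  obtain ⟨a, ha⟩ := f.exists_eq_of_trivial hT b k
  have h1 := hM.2 (MvPolynomial.X (i, k) - MvPolynomial.C (a ^ (i : ℕ))) (fun t ht => by
    unfold evM
    rw [MvPolynomial.eval₂_sub, MvPolynomial.eval₂_X, MvPolynomial.eval₂_C, map_pow]
    simp [P, ha t ht])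
  unfold evM at h1
  rw [MvPolynomial.eval₂_sub, MvPolynomial.eval₂_X, MvPolynomial.eval₂_C, map_pow,
    ← ha _ b.mem] at h1
  exact sub_eq_zero.1 h1

theorem not_hasRelation_of_trivial (hT : f.Trivial) {s : Qbar} (b : f.Branch (s : ℂ))
    (κ : IntermediateField ℚ Qbar) (δ : ℕ) : ¬ HasRelation b.U (f.P b) (s : ℂ) κ δ := by
  rintro ⟨r, _, hZ, hB⟩
  apply hB
  intro M hM
  rw [f.BFibre_of_trivial hT b M hM]
  exact hZ _ (mem_ZClosure_self b)

/-- If the monodromy is not trivial, infinitely many algebraic points carry a linear relation with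
rational coefficients. -/
theorem infinite_of_not_trivial (hT : ¬ f.Trivial) :
    {s : Qbar | (s : ℂ) ∈ f.S ∧ ∀ b : f.Branch (s : ℂ), ∀ κ : IntermediateField ℚ Qbar,
      ∀ δ : ℕ, 1 ≤ δ → HasRelation b.U (f.P b) (s : ℂ) κ δ}.Infinite := by
  rcases split_or f.deg f.F f.monic rfl with ⟨a, ha⟩ | ⟨G, hG, hGm, hdeg, hGF⟩
  · exact absurd ⟨a, ha⟩ hT
  · refine (infinite_points hG hGm hdeg f.D_ne).mono ?_
    rintro s ⟨hDs, c, hc⟩
    have hs : (s : ℂ) ∈ f.S := by
      change ev (s : ℂ) f.D ≠ 0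
      rw [ev_coe_apply]
      exact fun h => hDs (Subtype.ext h)
    exact ⟨hs, fun b κ δ hδ => hasRelation hG hGm hdeg hGF hs hc b κ hδ⟩

theorem holds_iff {δ : ℕ} (hδ : 1 ≤ δ) : f.Holds δ ↔ f.Trivial := by
  constructor
  · intro hH
    by_contra hT
    obtain ⟨s, hs, hrel⟩ := (f.infinite_of_not_trivial hT).nonempty
    obtain ⟨b⟩ := f.exists_branch hs
    exact hH s hs b (hrel b _ δ hδ)
  · intro hT s _ b
    exact f.not_hasRelation_of_trivial hT b _ δ

end Cover

end Pool.Agent.Helper64.Per
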